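import Pool.Agent.TH703.HU.Stm

/-!
# Project HU, C8: discs around the corner `(1 + i)/2`
-/

set_option autoImplicit false

open MeasureTheory Set Metric Filter Topology
open scoped ENNReal Real
open Pool.Agent.TH304.MI Pool.Agent.TH703.HU

noncomputable section

namespace Pool.Agent.TH227.HU

/-- The point at distance `s` and angle `θ` from `q`. -/
def pt (q : ℂ) (s θ : ℝ) : ℂ := q + (s : ℂ) * ((Real.cos θ : ℂ) + (Real.sin θ : ℂ) * Complex.I)

theorem pt_re (q : ℂ) (s θ : ℝ) : (pt q s θ).re = q.re + s * Real.cos θ := by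
  simp [pt, -Complex.ofReal_cos, -Complex.ofReal_sin]

theorem pt_im (q : ℂ) (s θ : ℝ) : (pt q s θ).im = q.im + s * Real.sin θ := by
  simp [pt, -Complex.ofReal_cos, -Complex.ofReal_sin]

theorem pt_cont (q : ℂ) : Continuous fun p : ℝ × ℝ => pt q p.1 p.2 := by
  unfold pt
  fun_prop

theorem pt_norm (q : ℂ) (s θ : ℝ) : ‖pt q s θ - q‖ = |s| := by
  have h1 : ‖pt q s θ - q‖ ^ 2 = |s| ^ 2 := by
    rw [Complex.sq_norm, Complex.normSq_apply]
    simp only [Complex.sub_re, Complex.sub_im, pt_re, pt_im, sq_abs]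
    nlinarith [Real.sin_sq_add_cos_sq θ]
  exact (pow_left_inj₀ (norm_nonneg _) (abs_nonneg _) two_ne_zero).1 h1

/-- Polar coordinates around `q`. -/
theorem polar (q : ℂ) (f : ℂ → ℝ) (hf : Continuous f) (r : ℝ) (hr : 0 ≤ r) :
    ∫ z in ball q r, f z = ∫ s in (0 : ℝ)..r, ∫ θ in (-π)..π, s * f (pt q s θ) := by
  have e1 : ∫ z in ball q r, f z = ∫ z, (ball (0 : ℂ) r).indicator (fun z => f (q + z)) z := by
    rw [← integral_indicator measurableSet_ball, ← integral_add_left_eq_self _ q]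
    congr 1
    ext z
    simp only [indicator, mem_ball, dist_eq_norm, add_sub_cancel_left, sub_zero]
  rw [e1, ← Complex.integral_comp_polarCoord_symm]
  have e2 : ∀ p ∈ polarCoord.target, p.1 • (ball (0 : ℂ) r).indicator (fun z => f (q + z))
      (Complex.polarCoord.symm p) = (Iio r ×ˢ (univ : Set ℝ)).indicator
        (fun p : ℝ × ℝ => p.1 * f (pt q p.1 p.2)) p := by
    intro p hp
    have hp1 : 0 < p.1 := by
      have := hp
      rw [polarCoord_target] at this
      exact this.1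
    have h1 : Complex.polarCoord.symm p = (p.1 : ℂ) * ((Real.cos p.2 : ℂ) +
        (Real.sin p.2 : ℂ) * Complex.I) := by
      rw [Complex.polarCoord_symm_apply]
    have h2 : ‖Complex.polarCoord.symm p‖ = p.1 := by
      have := pt_norm 0 p.1 p.2
      rw [sub_zero, abs_of_pos hp1] at this
      rw [h1, ← this]
      simp [pt]
    by_cases hlt : p.1 < r
    · have m1 : Complex.polarCoord.symm p ∈ ball (0 : ℂ) r := by
        rw [mem_ball_zero_iff, h2]; exact hlt
      have m2 : p ∈ Iio r ×ˢ (univ : Set ℝ) := ⟨hlt, mem_univ _⟩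
      rw [indicator_of_mem m1, indicator_of_mem m2, h1]
      rfl
    · have m1 : Complex.polarCoord.symm p ∉ ball (0 : ℂ) r := by
        rw [mem_ball_zero_iff, h2]; exact hlt
      have m2 : p ∉ Iio r ×ˢ (univ : Set ℝ) := fun h => hlt h.1
      rw [indicator_of_notMem m1, indicator_of_notMem m2, smul_zero]
  have hmt : MeasurableSet polarCoord.target := polarCoord.open_target.measurableSet
  rw [setIntegral_congr_fun hmt e2, setIntegral_indicator (measurableSet_Iio.prod MeasurableSet.univ)]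
  have e3 : polarCoord.target ∩ Iio r ×ˢ (univ : Set ℝ) = Ioo 0 r ×ˢ Ioo (-π) π := by
    rw [polarCoord_target, prod_inter_prod, inter_univ]
    rfl
  have hc : Continuous fun p : ℝ × ℝ => p.1 * f (pt q p.1 p.2) :=
    continuous_fst.mul (hf.comp (pt_cont q))
  rw [e3, Measure.volume_eq_prod, setIntegral_prod _ ?_]
  · rw [intervalIntegral.integral_of_le hr, integral_Ioc_eq_integral_Ioo]
    refine setIntegral_congr_fun measurableSet_Ioo fun s _ => ?_
    simp only
    rw [intervalIntegral.integral_of_le (by linarith [Real.pi_pos]), integral_Ioc_eq_integral_Ioo]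
  · have : IntegrableOn (fun p : ℝ × ℝ => p.1 * f (pt q p.1 p.2)) (Icc 0 r ×ˢ Icc (-π) π)
      (volume.prod volume) :=
      hc.continuousOn.integrableOn_compact (isCompact_Icc.prod isCompact_Icc)
    exact this.mono_set (prod_mono Ioo_subset_Icc_self Ioo_subset_Icc_self)

theorem dv2_cont {Y : ℂ → ℂ} (hY : ContDiff ℝ 1 Y) : Continuous (dv2 Y) := by
  have h1 : Continuous (fderiv ℝ Y) := hY.continuous_fderiv one_ne_zero
  unfold dv2
  exact (Complex.continuous_re.comp (h1.clm_apply continuous_const)).add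
    (Complex.continuous_im.comp (h1.clm_apply continuous_const))

/-- The divergence theorem for the disc. -/
theorem div_disc (q : ℂ) (Y : ℂ → ℂ) (hY : ContDiff ℝ 1 Y) (r : ℝ) (hr : 0 ≤ r) :
    ∫ z in ball q r, dv2 Y z = ∫ θ in (-π)..π,
      r * (Real.cos θ * (Y (pt q r θ)).re + Real.sin θ * (Y (pt q r θ)).im) := by
  rw [polar q (dv2 Y) (dv2_cont hY) r hr]
  obtain ⟨F, hF⟩ : ∃ F : ℝ × ℝ → ℝ, F = fun p => p.1 * (Real.cos p.2 * (Y (pt q p.1 p.2)).re +
    Real.sin p.2 * (Y (pt q p.1 p.2)).im) := ⟨_, rfl⟩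
  obtain ⟨G, hG⟩ : ∃ G : ℝ × ℝ → ℝ, G = fun p => -Real.sin p.2 * (Y (pt q p.1 p.2)).re +
    Real.cos p.2 * (Y (pt q p.1 p.2)).im := ⟨_, rfl⟩
  have hptd : Differentiable ℝ fun p : ℝ × ℝ => pt q p.1 p.2 := by
    unfold pt
    have h1 : Differentiable ℝ fun x : ℝ => (x : ℂ) := Complex.ofRealCLM.differentiable
    have h2 : Differentiable ℝ fun p : ℝ × ℝ => ((p.1 : ℝ) : ℂ) := h1.comp differentiable_fst
    have h3 : Differentiable ℝ fun p : ℝ × ℝ => ((Real.cos p.2 : ℝ) : ℂ) :=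
      h1.comp (Real.differentiable_cos.comp differentiable_snd)
    have h4 : Differentiable ℝ fun p : ℝ × ℝ => ((Real.sin p.2 : ℝ) : ℂ) :=
      h1.comp (Real.differentiable_sin.comp differentiable_snd)
    exact (differentiable_const q).add (h2.mul (h3.add (h4.mul (differentiable_const _))))
  have hYd : Differentiable ℝ Y := hY.differentiable (by norm_num)
  have hYp : Differentiable ℝ fun p : ℝ × ℝ => Y (pt q p.1 p.2) := hYd.comp hptd
  have hre : Differentiable ℝ fun p : ℝ × ℝ => (Y (pt q p.1 p.2)).re :=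
    Complex.reCLM.differentiable.comp hYp
  have him : Differentiable ℝ fun p : ℝ × ℝ => (Y (pt q p.1 p.2)).im :=
    Complex.imCLM.differentiable.comp hYp
  have hcos : Differentiable ℝ fun p : ℝ × ℝ => Real.cos p.2 :=
    Real.differentiable_cos.comp differentiable_snd
  have hsin : Differentiable ℝ fun p : ℝ × ℝ => Real.sin p.2 :=
    Real.differentiable_sin.comp differentiable_snd
  have hFd : Differentiable ℝ F := by
    rw [hF]
    exact differentiable_fst.mul ((hcos.mul hre).add (hsin.mul him))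
  have hGd : Differentiable ℝ G := by
    rw [hG]
    exact (hsin.neg.mul hre).add (hcos.mul him)
  -- the derivatives along the axes
  have key : ∀ s θ : ℝ, fderiv ℝ F (s, θ) (1, 0) + fderiv ℝ G (s, θ) (0, 1) =
      s * dv2 Y (pt q s θ) := by
    intro s θ
    obtain ⟨L, hL⟩ : ∃ L : ℂ →L[ℝ] ℂ, L = fderiv ℝ Y (pt q s θ) := ⟨_, rfl⟩
    have hLd : HasFDerivAt Y L (pt q s θ) := by rw [hL]; exact (hYd _).hasFDerivAt
    have hLlin : ∀ a b : ℝ, L ((a : ℂ) + (b : ℂ) * Complex.I) = (a : ℂ) * L 1 +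
        (b : ℂ) * L Complex.I := by
      intro a b
      have e : (a : ℂ) + (b : ℂ) * Complex.I = a • (1 : ℂ) + b • Complex.I := by
        simp
      rw [e, map_add, map_smul, map_smul]
      simp
    -- radial
    have hs1 : HasDerivAt (fun u : ℝ => pt q u θ)
        ((Real.cos θ : ℂ) + (Real.sin θ : ℂ) * Complex.I) s := by
      unfold pt
      have h1 : HasDerivAt (fun u : ℝ => (u : ℂ)) 1 s := Complex.ofRealCLM.hasDerivAt
      have h2 := (h1.mul_const ((Real.cos θ : ℂ) + (Real.sin θ : ℂ) * Complex.I)).const_add q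
      simpa using h2
    have hs2 : HasDerivAt (fun u : ℝ => Y (pt q u θ))
        (L ((Real.cos θ : ℂ) + (Real.sin θ : ℂ) * Complex.I)) s := hLd.comp_hasDerivAt s hs1
    have hs2r := Complex.reCLM.hasFDerivAt.comp_hasDerivAt s hs2
    have hs2i := Complex.imCLM.hasFDerivAt.comp_hasDerivAt s hs2
    have hs3 := (hasDerivAt_id s).mul ((hs2r.const_mul (Real.cos θ)).add
      (hs2i.const_mul (Real.sin θ)))
    have hs4 : HasDerivAt (fun u : ℝ => F (u, θ)) (fderiv ℝ F (s, θ) (1, 0)) s :=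
      (hFd (s, θ)).hasFDerivAt.comp_hasDerivAt s ((hasDerivAt_id s).prodMk (hasDerivAt_const s θ))
    have e1 : fderiv ℝ F (s, θ) (1, 0) = _ := hs4.unique (by
      rw [hF]; exact hs3)
    -- angular
    have ht1 : HasDerivAt (fun u : ℝ => pt q s u)
        ((s : ℂ) * (((-Real.sin θ : ℝ) : ℂ) + (Real.cos θ : ℂ) * Complex.I)) θ := by
      unfold pt
      have h1 : HasDerivAt (fun u : ℝ => ((Real.cos u : ℝ) : ℂ)) ((-Real.sin θ : ℝ) : ℂ) θ :=
        (Real.hasDerivAt_cos θ).ofReal_comp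
      have h2 : HasDerivAt (fun u : ℝ => ((Real.sin u : ℝ) : ℂ)) ((Real.cos θ : ℝ) : ℂ) θ :=
        (Real.hasDerivAt_sin θ).ofReal_comp
      exact ((h1.add (h2.mul_const Complex.I)).const_mul (s : ℂ)).const_add q
    have ht2 : HasDerivAt (fun u : ℝ => Y (pt q s u))
        (L ((s : ℂ) * (((-Real.sin θ : ℝ) : ℂ) + (Real.cos θ : ℂ) * Complex.I))) θ :=
      hLd.comp_hasDerivAt θ ht1
    have ht2r := Complex.reCLM.hasFDerivAt.comp_hasDerivAt θ ht2
    have ht2i := Complex.imCLM.hasFDerivAt.comp_hasDerivAt θ ht2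
    have ht3 := ((Real.hasDerivAt_sin θ).neg.mul ht2r).add ((Real.hasDerivAt_cos θ).mul ht2i)
    have ht4 : HasDerivAt (fun u : ℝ => G (s, u)) (fderiv ℝ G (s, θ) (0, 1)) θ :=
      (hGd (s, θ)).hasFDerivAt.comp_hasDerivAt θ ((hasDerivAt_const θ s).prodMk (hasDerivAt_id θ))
    have e2 : fderiv ℝ G (s, θ) (0, 1) = _ := ht4.unique (by
      rw [hG]; exact ht3)
    have e3 : (s : ℂ) * (((-Real.sin θ : ℝ) : ℂ) + (Real.cos θ : ℂ) * Complex.I) =
        ((-(s * Real.sin θ) : ℝ) : ℂ) + ((s * Real.cos θ : ℝ) : ℂ) * Complex.I := by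
      push_cast; ring
    rw [e1, e2, e3, hLlin, hLlin]
    unfold dv2
    rw [← hL]
    simp only [Complex.reCLM_apply, Complex.imCLM_apply, Complex.add_re, Complex.add_im,
      Complex.re_ofReal_mul, Complex.im_ofReal_mul, id, Function.comp, one_mul, Pi.add_apply,
      Pi.neg_apply]
    have hsc := Real.sin_sq_add_cos_sq θ
    obtain ⟨c, hc⟩ : ∃ c, c = Real.cos θ := ⟨_, rfl⟩
    obtain ⟨t, ht⟩ : ∃ t, t = Real.sin θ := ⟨_, rfl⟩
    rw [← hc, ← ht] at hsc
    rw [← hc, ← ht]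
    linear_combination (s * (L 1).re + s * (L Complex.I).im) * hsc
  have hcY : Continuous fun p : ℝ × ℝ => p.1 * dv2 Y (pt q p.1 p.2) :=
    continuous_fst.mul ((dv2_cont hY).comp (pt_cont q))
  have main := integral2_divergence_prod_of_hasFDerivAt_off_countable F G (fderiv ℝ F)
    (fderiv ℝ G) 0 (-π) r π ∅ countable_empty hFd.continuous.continuousOn
    hGd.continuous.continuousOn (fun x _ => (hFd x).hasFDerivAt) (fun x _ => (hGd x).hasFDerivAt)
    (by
      have : (fun x : ℝ × ℝ => fderiv ℝ F x (1, 0) + fderiv ℝ G x (0, 1)) =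
          fun p : ℝ × ℝ => p.1 * dv2 Y (pt q p.1 p.2) := by
        funext p; exact key p.1 p.2
      rw [this]
      exact hcY.continuousOn.integrableOn_compact (isCompact_uIcc.prod isCompact_uIcc))
  simp only [key] at main
  rw [main, hF, hG]
  simp [pt]

/-- The angular average of the weight. -/
def ga (w : ℂ → ℝ) (q : ℂ) (s : ℝ) : ℝ := ∫ θ in (-π)..π, w (pt q s θ)

theorem ga_cont (w : ℂ → ℝ) (hw : Continuous w) (q : ℂ) : Continuous (ga w q) := by
  unfold ga
  apply intervalIntegral.continuous_parametric_intervalIntegral_of_continuous'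
  exact hw.comp (pt_cont q)

theorem mu_disc (w : ℂ → ℝ) (hw : Continuous w) (q : ℂ) (r : ℝ) (hr : 0 ≤ r) :
    mu w (ball q r) = ∫ s in (0 : ℝ)..r, s * ga w q s := by
  unfold mu ga
  rw [polar q w hw r hr]
  simp only [intervalIntegral.integral_const_mul]

theorem per_disc (w : ℂ → ℝ) (hw : Continuous w) (q : ℂ) (r : ℝ) (hr : 0 ≤ r) :
    PW w (ball q r) (r * ga w q r) := by
  intro Y hY
  rw [div_disc q Y hY.cd r hr]
  unfold ga
  rw [← intervalIntegral.integral_const_mul]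
  have hcY : Continuous Y := hY.cd.continuous
  have hcp : Continuous fun θ : ℝ => pt q r θ := (pt_cont q).comp (by fun_prop : Continuous fun θ : ℝ => (r, θ))
  have hcYp : Continuous fun θ : ℝ => Y (pt q r θ) := hcY.comp hcp
  apply intervalIntegral.integral_mono_on (by linarith [Real.pi_pos])
  · apply Continuous.intervalIntegrable
    exact continuous_const.mul ((Real.continuous_cos.mul (Complex.continuous_re.comp hcYp)).add
      (Real.continuous_sin.mul (Complex.continuous_im.comp hcYp)))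
  · apply Continuous.intervalIntegrable
    exact continuous_const.mul (hw.comp hcp)
  · intro θ _
    apply mul_le_mul_of_nonneg_left _ hr
    refine le_trans ?_ (hY.le (pt q r θ))
    obtain ⟨z, hz⟩ : ∃ z, z = Y (pt q r θ) := ⟨_, rfl⟩
    rw [← hz]
    have h1 : (Real.cos θ * z.re + Real.sin θ * z.im) ^ 2 ≤ ‖z‖ ^ 2 := by
      rw [Complex.sq_norm, Complex.normSq_apply]
      have hsc := Real.sin_sq_add_cos_sq θ
      nlinarith [sq_nonneg (Real.cos θ * z.im - Real.sin θ * z.re)]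
    exact abs_le_of_sq_le_sq' h1 (norm_nonneg _) |>.2

theorem wt_one {c1 : S_C1} {c0 : S_C0} {M : ℕ → ℕ} (hM : Tendsto M atTop atTop)
    (hM1 : ∀ k, 1 ≤ M k) {z : ℕ → ℂ} {z0 : ℂ} (hz : Tendsto z atTop (𝓝 z0))
    (h1 : |z0.re| < 1 / 2) (h2 : |z0.im| < 1 / 2) :
    Tendsto (fun k => wt (M k) (z k)) atTop (𝓝 1) := by
  rw [Metric.tendsto_atTop]
  intro ε hε
  obtain ⟨δ, hδ, hδε, hδ1, hδ2⟩ : ∃ δ : ℝ, 0 < δ ∧ δ < ε ∧ |z0.re| < 1 / 2 - δ ∧
      |z0.im| < 1 / 2 - δ := by
    refine ⟨min (ε / 2) (min ((1 / 2 - |z0.re|) / 2) ((1 / 2 - |z0.im|) / 2)), ?_, ?_, ?_, ?_⟩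
    · refine lt_min (by linarith) (lt_min (by linarith) (by linarith))
    · exact lt_of_le_of_lt (min_le_left _ _) (by linarith)
    · have := (min_le_right (ε / 2) (min ((1 / 2 - |z0.re|) / 2) ((1 / 2 - |z0.im|) / 2))).trans
        (min_le_left _ _)
      linarith
    · have := (min_le_right (ε / 2) (min ((1 / 2 - |z0.re|) / 2) ((1 / 2 - |z0.im|) / 2))).trans
        (min_le_right _ _)
      linarith
  obtain ⟨m₀, hm₀⟩ := c1.1 δ hδ
  have hre : Tendsto (fun k => |(z k).re|) atTop (𝓝 |z0.re|) :=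
    ((Complex.continuous_re.tendsto z0).comp hz).abs
  have him : Tendsto (fun k => |(z k).im|) atTop (𝓝 |z0.im|) :=
    ((Complex.continuous_im.tendsto z0).comp hz).abs
  have ev := (hM.eventually_ge_atTop m₀).and ((hre.eventually_lt_const hδ1).and
    (him.eventually_lt_const hδ2))
  obtain ⟨N, hN⟩ := eventually_atTop.1 ev
  refine ⟨N, fun k hk => ?_⟩
  obtain ⟨a1, a2, a3⟩ := hN k hk
  have b1 := (hm₀ (M k) a1).1 (z k) a2.le a3.le
  have b2 := (c0 (M k) (hM1 k)).2.2.2.1 (z k)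
  rw [Real.dist_eq, abs_lt]
  constructor <;> linarith

theorem wt_zero {c1 : S_C1} {c0 : S_C0} {M : ℕ → ℕ} (hM : Tendsto M atTop atTop)
    (hM1 : ∀ k, 1 ≤ M k) {z : ℕ → ℂ} {z0 : ℂ} (hz : Tendsto z atTop (𝓝 z0))
    (h : 1 / 2 < |z0.re| ∨ 1 / 2 < |z0.im|) :
    Tendsto (fun k => wt (M k) (z k)) atTop (𝓝 0) := by
  rw [Metric.tendsto_atTop]
  intro ε hε
  obtain ⟨δ, hδ, hδε, hδ1⟩ : ∃ δ : ℝ, 0 < δ ∧ δ < ε ∧ (1 / 2 + δ < |z0.re| ∨
      1 / 2 + δ < |z0.im|) := by
    rcases h with h | h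
    · refine ⟨min (ε / 2) ((|z0.re| - 1 / 2) / 2), lt_min (by linarith) (by linarith),
        lt_of_le_of_lt (min_le_left _ _) (by linarith), Or.inl ?_⟩
      have := min_le_right (ε / 2) ((|z0.re| - 1 / 2) / 2)
      linarith
    · refine ⟨min (ε / 2) ((|z0.im| - 1 / 2) / 2), lt_min (by linarith) (by linarith),
        lt_of_le_of_lt (min_le_left _ _) (by linarith), Or.inr ?_⟩
      have := min_le_right (ε / 2) ((|z0.im| - 1 / 2) / 2)
      linarith
  obtain ⟨m₀, hm₀⟩ := c1.1 δ hδ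
  have hre : Tendsto (fun k => |(z k).re|) atTop (𝓝 |z0.re|) :=
    ((Complex.continuous_re.tendsto z0).comp hz).abs
  have him : Tendsto (fun k => |(z k).im|) atTop (𝓝 |z0.im|) :=
    ((Complex.continuous_im.tendsto z0).comp hz).abs
  have ev2 : ∀ᶠ k in atTop, (1 / 2 + δ ≤ |(z k).re| ∨ 1 / 2 + δ ≤ |(z k).im|) := by
    rcases hδ1 with h1 | h1
    · exact (hre.eventually_const_lt h1).mono fun k hk => Or.inl hk.le
    · exact (him.eventually_const_lt h1).mono fun k hk => Or.inr hk.le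
  obtain ⟨N, hN⟩ := eventually_atTop.1 ((hM.eventually_ge_atTop m₀).and ev2)
  refine ⟨N, fun k hk => ?_⟩
  obtain ⟨a1, a2⟩ := hN k hk
  have b1 := (hm₀ (M k) a1).2 (z k) a2
  have b2 := (c0 (M k) (hM1 k)).2.2.1 (z k)
  rw [Real.dist_eq, abs_lt]
  constructor <;> linarith

/-- The corner of the square. -/
def qq : ℂ := ⟨1 / 2, 1 / 2⟩

/-- The third quadrant. -/
def ind (θ : ℝ) : ℝ := (Iic (-(π / 2))).indicator (fun _ => (1 : ℝ)) θ

theorem int_ind : ∫ θ in (-π)..π, ind θ = π / 2 := by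
  have hp := Real.pi_pos
  unfold ind
  rw [intervalIntegral.integral_of_le (by linarith), setIntegral_indicator measurableSet_Iic,
    Ioc_inter_Iic, setIntegral_const, smul_eq_mul, mul_one,
    min_eq_right (by linarith), Real.volume_real_Ioc_of_le (by linarith)]
  ring

theorem wt_lim {c1 : S_C1} {c0 : S_C0} {M : ℕ → ℕ} (hM : Tendsto M atTop atTop)
    (hM1 : ∀ k, 1 ≤ M k) {S : ℕ → ℝ} {s0 : ℝ} (hS : Tendsto S atTop (𝓝 s0))
    (h0 : 0 < s0) (h3 : s0 ≤ 3 / 10) {θ : ℝ} (hθ : θ ∈ Ioc (-π) π) (h4 : θ ≠ π) (_ : θ ≠ 0)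
    (h6 : θ ≠ π / 2) (h7 : θ ≠ -(π / 2)) :
    Tendsto (fun k => wt (M k) (pt qq (S k) θ)) atTop (𝓝 (ind θ)) := by
  have hz : Tendsto (fun k => pt qq (S k) θ) atTop (𝓝 (pt qq s0 θ)) := by
    have hc : Continuous fun s : ℝ => pt qq s θ :=
      (pt_cont qq).comp (by fun_prop : Continuous fun s : ℝ => (s, θ))
    exact (hc.tendsto s0).comp hS
  have hp := Real.pi_pos
  have hcb := Real.neg_one_le_cos θ
  have hsb := Real.neg_one_le_sin θ
  have ere : (pt qq s0 θ).re = 1 / 2 + s0 * Real.cos θ := pt_re _ _ _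
  have eim : (pt qq s0 θ).im = 1 / 2 + s0 * Real.sin θ := pt_im _ _ _
  rcases lt_or_gt_of_ne h7 with h | h
  · -- third quadrant
    have e : ind θ = 1 := indicator_of_mem (show θ ∈ Iic (-(π / 2)) from h.le) _
    rw [e]
    have hs : Real.sin θ < 0 := Real.sin_neg_of_neg_of_neg_pi_lt (by linarith) hθ.1
    have hc : Real.cos θ < 0 := by
      have := Real.cos_neg_of_pi_div_two_lt_of_lt (x := -θ) (by linarith) (by linarith [hθ.1])
      rwa [Real.cos_neg] at this
    have a1 : s0 * Real.cos θ < 0 := mul_neg_of_pos_of_neg h0 hc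
    have a2 : s0 * Real.sin θ < 0 := mul_neg_of_pos_of_neg h0 hs
    have a3 : -(3 / 10) ≤ s0 * Real.cos θ := by nlinarith
    have a4 : -(3 / 10) ≤ s0 * Real.sin θ := by nlinarith
    refine wt_one (c1 := c1) (c0 := c0) hM hM1 hz ?_ ?_
    · rw [ere, abs_lt]; constructor <;> linarith
    · rw [eim, abs_lt]; constructor <;> linarith
  · have e : ind θ = 0 := indicator_of_notMem (show θ ∉ Iic (-(π / 2)) from not_le.2 h) _
    rw [e]
    refine wt_zero (c1 := c1) (c0 := c0) hM hM1 hz ?_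
    rcases lt_or_gt_of_ne h6 with h' | h'
    · left
      have hc : 0 < Real.cos θ := Real.cos_pos_of_mem_Ioo ⟨h, h'⟩
      have := mul_pos h0 hc
      rw [ere, abs_of_pos (by linarith)]
      linarith
    · right
      have hs : 0 < Real.sin θ := Real.sin_pos_of_pos_of_lt_pi (by linarith)
        (lt_of_le_of_ne hθ.2 h4)
      have := mul_pos h0 hs
      rw [eim, abs_of_pos (by linarith)]
      linarith

theorem unif (c0 : S_C0) (c1 : S_C1) (δ : ℝ) (hδ : 0 < δ) : ∃ m₀ : ℕ, ∀ m : ℕ, m₀ ≤ m → 1 ≤ m →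
    ∀ s ∈ Icc (0 : ℝ) (3 / 10), |s * ga (wt m) qq s - π * s / 2| ≤ δ := by
  by_contra hcon
  push Not at hcon
  choose mk hmk hmk1 sk hsk hbad using hcon
  obtain ⟨s0, hs0, φ, hφ, hlim⟩ := isCompact_Icc.tendsto_subseq hsk
  obtain ⟨M, hMd⟩ : ∃ M : ℕ → ℕ, M = fun k => mk (φ k) := ⟨_, rfl⟩
  obtain ⟨S, hSd⟩ : ∃ S : ℕ → ℝ, S = fun k => sk (φ k) := ⟨_, rfl⟩
  have hM : Tendsto M atTop atTop := by
    rw [hMd]
    exact tendsto_atTop_mono (fun k => (hφ.id_le k).trans (hmk (φ k))) tendsto_id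
  have hM1 : ∀ k, 1 ≤ M k := fun k => by rw [hMd]; exact hmk1 (φ k)
  have hS : Tendsto S atTop (𝓝 s0) := by rw [hSd]; exact hlim
  have hSm : ∀ k, S k ∈ Icc (0 : ℝ) (3 / 10) := fun k => by rw [hSd]; exact hsk (φ k)
  have hb : ∀ k, δ < |S k * ga (wt (M k)) qq (S k) - π * S k / 2| := fun k => by
    rw [hSd, hMd]; exact hbad (φ k)
  have main : Tendsto (fun k => ∫ θ in (-π)..π, S k * wt (M k) (pt qq (S k) θ)) atTop
      (𝓝 (∫ θ in (-π)..π, s0 * ind θ)) := by
    apply intervalIntegral.tendsto_integral_filter_of_dominated_convergence (fun _ => 1)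
    · refine Eventually.of_forall fun k => ?_
      have hw := (c0 (M k) (hM1 k)).2.1
      have hc : Continuous fun θ : ℝ => S k * wt (M k) (pt qq (S k) θ) :=
        continuous_const.mul (hw.comp ((pt_cont qq).comp
          (by fun_prop : Continuous fun θ : ℝ => (S k, θ))))
      exact hc.aestronglyMeasurable
    · refine Eventually.of_forall fun k => Eventually.of_forall fun θ _ => ?_
      have a1 := (c0 (M k) (hM1 k)).2.2.1 (pt qq (S k) θ)
      have a2 := (c0 (M k) (hM1 k)).2.2.2.1 (pt qq (S k) θ)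
      have a3 := (hSm k).1
      have a4 := (hSm k).2
      rw [Real.norm_eq_abs, abs_of_nonneg (mul_nonneg a3 a1)]
      nlinarith
    · exact intervalIntegrable_const
    · have hfin : volume ({π, 0, π / 2, -(π / 2)} : Set ℝ) = 0 :=
        (Set.toFinite _).measure_zero _
      have hae : ∀ᵐ θ : ℝ, θ ∉ ({π, 0, π / 2, -(π / 2)} : Set ℝ) := by
        rw [ae_iff]
        simpa only [not_not, setOf_mem_eq] using hfin
      filter_upwards [hae] with θ hθn hθ
      rw [uIoc_of_le (by linarith [Real.pi_pos])] at hθ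
      simp only [mem_insert_iff, mem_singleton_iff, not_or] at hθn
      obtain ⟨n1, n2, n3, n4⟩ := hθn
      rcases hs0.1.eq_or_lt with h0 | h0
      · -- zero radius
        rw [← h0, zero_mul]
        rw [← h0] at hS
        refine squeeze_zero_norm (fun k => ?_) hS
        have a1 := (c0 (M k) (hM1 k)).2.2.1 (pt qq (S k) θ)
        have a2 := (c0 (M k) (hM1 k)).2.2.2.1 (pt qq (S k) θ)
        have a3 := (hSm k).1
        rw [Real.norm_eq_abs, abs_of_nonneg (mul_nonneg a3 a1)]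
        exact mul_le_of_le_one_right a3 a2
      · exact hS.mul (wt_lim (c1 := c1) (c0 := c0) hM hM1 hS h0 hs0.2 hθ n1 n2 n3 n4)
  have e1 : ∀ k, ∫ θ in (-π)..π, S k * wt (M k) (pt qq (S k) θ) =
      S k * ga (wt (M k)) qq (S k) := fun k => by
    unfold ga; rw [intervalIntegral.integral_const_mul]
  rw [intervalIntegral.integral_const_mul, int_ind] at main
  simp only [e1] at main
  have m2 : Tendsto (fun k => π * S k / 2) atTop (𝓝 (π * s0 / 2)) :=
    (hS.const_mul π).div_const 2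
  have m3 := (main.sub m2).abs
  have e2 : s0 * (π / 2) - π * s0 / 2 = 0 := by ring
  rw [e2, abs_zero] at m3
  obtain ⟨k, hk⟩ := (m3.eventually_lt_const hδ).exists
  exact absurd hk (not_lt.2 (hb k).le)

theorem c8 (c0 : S_C0) (c1 : S_C1) : S_C8 := by
  intro δ hδ
  obtain ⟨m₀, h⟩ := unif c0 c1 δ hδ
  refine ⟨max m₀ 1, fun m hm => ?_⟩
  have hm0 : m₀ ≤ m := (le_max_left _ _).trans hm
  have hm1 : 1 ≤ m := (le_max_right _ _).trans hm
  have hw : Continuous (wt m) := (c0 m hm1).2.1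
  have hgc : Continuous fun s : ℝ => s * ga (wt m) qq s := continuous_id.mul (ga_cont _ hw _)
  change ContinuousOn (fun r : ℝ => mu (wt m) (ball qq r)) (Icc 0 (3 / 10)) ∧
    ∀ r ∈ Icc (0 : ℝ) (3 / 10), |mu (wt m) (ball qq r) - π * r ^ 2 / 4| ≤ δ ∧
    PW (wt m) (ball qq r) (π * r / 2 + δ)
  refine ⟨?_, fun r hr => ⟨?_, ?_⟩⟩
  · have h1 : Continuous fun r : ℝ => ∫ s in (0 : ℝ)..r, s * ga (wt m) qq s :=
      intervalIntegral.continuous_primitive (fun a b => hgc.intervalIntegrable a b) 0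
    exact h1.continuousOn.congr fun r hr => mu_disc _ hw _ r hr.1
  · rw [mu_disc _ hw _ r hr.1]
    have e : ∫ s in (0 : ℝ)..r, π * s / 2 = π * r ^ 2 / 4 := by
      have : (fun s : ℝ => π * s / 2) = fun s => (π / 2) * s := by funext s; ring
      rw [this, intervalIntegral.integral_const_mul, integral_id]
      ring
    rw [← e, ← intervalIntegral.integral_sub (hgc.intervalIntegrable _ _)
      ((by fun_prop : Continuous fun s : ℝ => π * s / 2).intervalIntegrable _ _)]
    have h2 := intervalIntegral.norm_integral_le_of_norm_le_const (a := 0) (b := r) (C := δ)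
      (f := fun s => s * ga (wt m) qq s - π * s / 2) (fun s hs => by
        rw [uIoc_of_le hr.1] at hs
        exact h m hm0 hm1 s ⟨hs.1.le, hs.2.trans hr.2⟩)
    rw [Real.norm_eq_abs, sub_zero, abs_of_nonneg hr.1] at h2
    refine h2.trans ?_
    have := hr.2
    nlinarith
  · intro Y hY
    have h1 := per_disc (wt m) hw qq r hr.1 Y hY
    have h2 := (abs_le.1 (h m hm0 hm1 r hr)).2
    linarith

end Pool.Agent.TH227.HU
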